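import Mathlib

set_option autoImplicit false

namespace Pool.Agent.Results.MP_0479e2_co.OddTotalDomination

open Finset

/-- `S` is a total dominating set of `G`: every vertex of `G` has a neighbour in `S`. -/
def IsTotalDominating {V : Type*} (G : SimpleGraph V) (S : Finset V) : Prop :=
  ∀ v : V, ∃ w ∈ S, G.Adj v w

/-- The total domination number: the least cardinality of a total dominating set. -/
noncomputable def totalDominationNumber {V : Type*} (G : SimpleGraph V) : ℕ :=
  sInf {k : ℕ | ∃ S : Finset V, IsTotalDominating G S ∧ S.card = k}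

section core

variable {V : Type*} [DecidableEq V] (G : SimpleGraph V) [DecidableRel G.Adj]

/-- Each vertex missed by fewer than `t - 1` vertices would give a small dominating set. -/
lemma miss_ge (A B : Finset V) (t : ℕ)
    (htmin : ∀ T ⊆ B, T.card < t → ∃ u ∈ A, ∀ z ∈ T, ¬ G.Adj u z)
    (hiso : ∀ u ∈ A, ∃ z ∈ B, G.Adj u z) (q : V) (hq : q ∈ B) :
    t ≤ #{u ∈ A | ¬ G.Adj u q} + 1 := by
  by_contra hcon
  push Not at hcon
  choose! f hfB hfadj using hiso
  set D : Finset V := {u ∈ A | ¬ G.Adj u q} with hD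
  obtain ⟨u, huA, hu⟩ := htmin (insert q (D.image f)) (by
    intro x hx
    rw [mem_insert, mem_image] at hx
    rcases hx with rfl | ⟨y, hy, rfl⟩
    · exact hq
    · exact hfB y (mem_filter.mp hy).1)
    (lt_of_le_of_lt ((card_insert_le _ _).trans (Nat.add_le_add_right card_image_le 1)) hcon)
  have h1 : ¬ G.Adj u q := hu q (mem_insert_self _ _)
  have h2 : u ∈ D := mem_filter.mpr ⟨huA, h1⟩
  exact hu (f u) (mem_insert_of_mem (mem_image_of_mem f h2)) (hfadj u huA)

lemma core (A B U : Finset V) (s t : ℕ)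
    (hUA : U ⊆ A) (hUs : U.card = s) (hUc : ∀ z ∈ B, ∃ u ∈ U, G.Adj u z)
    (hmin : ∀ S ⊆ A, S.card < s → ∃ z ∈ B, ∀ u ∈ S, ¬ G.Adj u z)
    (htmin : ∀ T ⊆ B, T.card < t → ∃ u ∈ A, ∀ z ∈ T, ¬ G.Adj u z)
    (hiso : ∀ u ∈ A, ∃ z ∈ B, G.Adj u z)
    (hts : t < s) (ht : 1 ≤ t) :
    ((∑ u ∈ A, #{z ∈ B | G.Adj u z} : ℕ) : ℤ) ≤
      (A.card : ℤ) * B.card - A.card * (s - 1) - (B.card - s) * (t - 1) := by
  classical
  -- private points
  have hpriv : ∀ u ∈ U, ∃ z ∈ B, ∀ w ∈ U.erase u, ¬ G.Adj w z := by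
    intro u hu
    exact hmin (U.erase u) ((erase_subset _ _).trans hUA)
      (by rw [card_erase_of_mem hu]; omega)
  choose! p hpB hpmiss using hpriv
  have hpadj : ∀ u ∈ U, G.Adj u (p u) := by
    intro u hu
    obtain ⟨w, hw, hwadj⟩ := hUc (p u) (hpB u hu)
    by_cases hwu : w = u
    · rwa [hwu] at hwadj
    · exact absurd hwadj (hpmiss u hu w (mem_erase.mpr ⟨hwu, hw⟩))
  have hpadj' : ∀ u ∈ U, ∀ w ∈ U, (G.Adj w (p u) ↔ w = u) := by
    intro u hu w hw
    constructor
    · intro h
      by_contra hne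
      exact hpmiss u hu w (mem_erase.mpr ⟨hne, hw⟩) h
    · rintro rfl; exact hpadj w hw
  have hpinj : Set.InjOn p U := by
    intro u hu w hw huw
    have h1 := hpadj u hu
    rw [huw] at h1
    exact (hpadj' w hw u hu).mp h1
  set P : Finset V := U.image p with hP
  have hPcard : P.card = s := by rw [hP, card_image_of_injOn hpinj, hUs]
  have hPB : P ⊆ B := by
    intro x hx
    obtain ⟨u, hu, rfl⟩ := mem_image.mp hx
    exact hpB u hu
  -- notation
  let small : V → Prop := fun q => #{i ∈ U | G.Adj i q} ≤ 2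
  let k : V → ℕ := fun u => #{i ∈ U | G.Adj u (p i)}
  let Q : V → Finset V := fun u => {q ∈ B \ P | ¬ G.Adj u q ∧ small q}
  -- the key estimate
  have hkQ : ∀ u ∈ A, k u ≤ #(Q u) + 1 := by
    intro u hu
    -- for each q in Q u choose an index adjacent to q
    have hc : ∀ q ∈ B, ∃ i ∈ U, G.Adj i q := hUc
    choose! c hcU hcadj using hc
    have hK : #({i ∈ U | G.Adj u (p i)} \ (Q u).image c) ≤ 1 := by
      rw [card_le_one]
      intro i hi j hj
      by_contra hij
      rw [mem_sdiff, mem_filter] at hi hj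
      obtain ⟨⟨hiU, hui⟩, hic⟩ := hi
      obtain ⟨⟨hjU, huj⟩, hjc⟩ := hj
      have hS : (insert u ((U.erase i).erase j)) ⊆ A := by
        intro x hx
        rw [mem_insert] at hx
        rcases hx with rfl | hx
        · exact hu
        · exact hUA (mem_of_mem_erase (mem_of_mem_erase hx))
      have hScard : (insert u ((U.erase i).erase j)).card < s := by
        have h1 : j ∈ U.erase i := mem_erase.mpr ⟨fun h => hij h.symm, hjU⟩
        have h2 : ((U.erase i).erase j).card = s - 1 - 1 := by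
          rw [card_erase_of_mem h1, card_erase_of_mem hiU, hUs]
        have h3 : 2 ≤ s := by omega
        have h4 := card_insert_le u ((U.erase i).erase j)
        omega
      obtain ⟨q, hqB, hq⟩ := hmin _ hS hScard
      have huq : ¬ G.Adj u q := hq u (mem_insert_self _ _)
      have hlq : ∀ l ∈ U, l ≠ i → l ≠ j → ¬ G.Adj l q := by
        intro l hl hli hlj
        exact hq l (mem_insert_of_mem (mem_erase.mpr ⟨hlj, mem_erase.mpr ⟨hli, hl⟩⟩))
      have hqP : q ∉ P := by
        intro hqP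
        obtain ⟨l, hl, rfl⟩ := mem_image.mp hqP
        by_cases hli : l = i
        · subst hli; exact huq hui
        · by_cases hlj : l = j
          · subst hlj; exact huq huj
          · exact hlq l hl hli hlj (hpadj l hl)
      have hsm : small q := by
        have hsub : ({l ∈ U | G.Adj l q} : Finset V) ⊆ {i, j} := by
          intro l hl
          rw [mem_filter] at hl
          rw [mem_insert, mem_singleton]
          by_contra hcon
          push Not at hcon
          exact hlq l hl.1 hcon.1 hcon.2 hl.2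
        exact (card_le_card hsub).trans card_le_two
      have hqQ : q ∈ Q u := by
        simp only [Q, mem_filter, mem_sdiff]
        exact ⟨⟨hqB, hqP⟩, huq, hsm⟩
      have hcq : c q = i ∨ c q = j := by
        by_contra hcon
        push Not at hcon
        exact hlq (c q) (hcU q hqB) hcon.1 hcon.2 (hcadj q hqB)
      rcases hcq with h | h
      · exact hic (mem_image.mpr ⟨q, hqQ, h⟩)
      · exact hjc (mem_image.mpr ⟨q, hqQ, h⟩)
    have h5 : k u ≤ #({i ∈ U | G.Adj u (p i)} \ (Q u).image c) + #((Q u).image c) :=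
      card_le_card_sdiff_add_card (t := (Q u).image c) (s := {i ∈ U | G.Adj u (p i)})
    have h6 : #((Q u).image c) ≤ #(Q u) := card_image_le
    omega
  have hkU : ∀ u ∈ U, k u = 1 := by
    intro u hu
    have : ({i ∈ U | G.Adj u (p i)} : Finset V) = {u} := by
      ext i
      rw [mem_filter, mem_singleton]
      constructor
      · rintro ⟨hi, hadj⟩
        exact ((hpadj' i hi u hu).mp hadj).symm
      · rintro rfl
        exact ⟨hu, hpadj i hu⟩
    simp only [k, this, card_singleton]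
  -- decompose the misses
  have hmissP : ∀ u, #{z ∈ P | ¬ G.Adj u z} + k u = s := by
    intro u
    have h1 : k u = #{z ∈ P | G.Adj u z} := by
      simp only [k]
      have : ({z ∈ P | G.Adj u z} : Finset V) = ({i ∈ U | G.Adj u (p i)} : Finset V).image p := by
        ext z
        simp only [hP, mem_filter, mem_image]
        constructor
        · rintro ⟨⟨i, hi, rfl⟩, h⟩
          exact ⟨i, ⟨hi, h⟩, rfl⟩
        · rintro ⟨i, ⟨hi, h⟩, rfl⟩
          exact ⟨⟨i, hi, rfl⟩, h⟩
      rw [this, card_image_of_injOn (hpinj.mono (by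
        intro x hx
        exact (mem_filter.mp (mem_coe.mp hx)).1))]
    rw [h1, ← hPcard]
    rw [add_comm]
    exact card_filter_add_card_filter_not _
  have hmiss : ∀ u, #{z ∈ B | ¬ G.Adj u z} =
      #{z ∈ P | ¬ G.Adj u z} + #{z ∈ B \ P | ¬ G.Adj u z} := by
    intro u
    rw [← card_union_of_disjoint]
    · congr 1
      ext z
      simp only [mem_filter, mem_union, mem_sdiff]
      constructor
      · rintro ⟨h1, h2⟩
        by_cases h3 : z ∈ P
        · exact Or.inl ⟨h3, h2⟩
        · exact Or.inr ⟨⟨h1, h3⟩, h2⟩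
      · rintro (⟨h1, h2⟩ | ⟨⟨h1, h3⟩, h2⟩)
        · exact ⟨hPB h1, h2⟩
        · exact ⟨h1, h2⟩
    · exact disjoint_filter_filter disjoint_sdiff
  have hadd : ∀ u, #{z ∈ B | G.Adj u z} + #{z ∈ B | ¬ G.Adj u z} = B.card :=
    fun u => card_filter_add_card_filter_not _
  -- double counting outside P
  have hdc : ∑ u ∈ A, #{z ∈ B \ P | ¬ G.Adj u z} = ∑ q ∈ B \ P, #{u ∈ A | ¬ G.Adj u q} :=
    sum_card_bipartiteAbove_eq_sum_card_bipartiteBelow (fun u z => ¬ G.Adj u z)
  have hdcQ : ∑ u ∈ A \ U, #(Q u) =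
      ∑ q ∈ B \ P, #{u ∈ A \ U | ¬ G.Adj u q ∧ small q} :=
    sum_card_bipartiteAbove_eq_sum_card_bipartiteBelow (fun u z => ¬ G.Adj u z ∧ small z)
  have hpt : ∀ q ∈ B \ P, #{u ∈ A \ U | ¬ G.Adj u q ∧ small q} + (t - 1) ≤
      #{u ∈ A | ¬ G.Adj u q} := by
    intro q hq
    have hqB : q ∈ B := (mem_sdiff.mp hq).1
    by_cases hsm : small q
    · have h1 : #{u ∈ A | ¬ G.Adj u q} = #{u ∈ A \ U | ¬ G.Adj u q} + #{u ∈ U | ¬ G.Adj u q} := by
        rw [← card_union_of_disjoint]
        · congr 1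
          ext z
          simp only [mem_filter, mem_union, mem_sdiff]
          constructor
          · rintro ⟨h1, h2⟩
            by_cases h3 : z ∈ U
            · exact Or.inr ⟨h3, h2⟩
            · exact Or.inl ⟨⟨h1, h3⟩, h2⟩
          · rintro (⟨⟨h1, h3⟩, h2⟩ | ⟨h1, h2⟩)
            · exact ⟨h1, h2⟩
            · exact ⟨hUA h1, h2⟩
        · exact disjoint_filter_filter sdiff_disjoint
      have h2 : #{u ∈ U | G.Adj u q} + #{u ∈ U | ¬ G.Adj u q} = s := by
        rw [← hUs]; exact card_filter_add_card_filter_not _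
      have h3 : #{u ∈ A \ U | ¬ G.Adj u q ∧ small q} ≤ #{u ∈ A \ U | ¬ G.Adj u q} :=
        card_le_card (fun x hx => by
          rw [mem_filter] at hx ⊢
          exact ⟨hx.1, hx.2.1⟩)
      have h4 : #{i ∈ U | G.Adj i q} ≤ 2 := hsm
      omega
    · have h1 : ({u ∈ A \ U | ¬ G.Adj u q ∧ small q} : Finset V) = ∅ := by
        rw [filter_eq_empty_iff]
        rintro x _ ⟨_, h⟩
        exact hsm h
      rw [h1, card_empty, zero_add]
      have := miss_ge G A B t htmin hiso q hqB
      omega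
  have hsum1 := sum_le_sum hpt
  rw [sum_add_distrib, sum_const, smul_eq_mul, ← hdcQ, ← hdc] at hsum1
  have hksum : ∑ u ∈ A, k u ≤ A.card + ∑ u ∈ A \ U, #(Q u) := by
    have h1 : ∑ u ∈ A, k u = ∑ u ∈ A \ U, k u + ∑ u ∈ U, k u := (sum_sdiff hUA).symm
    have h2 : ∑ u ∈ U, k u = U.card := by
      rw [sum_congr rfl hkU]; simp
    have h3 : ∑ u ∈ A \ U, k u ≤ ∑ u ∈ A \ U, (#(Q u) + 1) :=
      sum_le_sum (fun u hu => hkQ u (mem_sdiff.mp hu).1)
    rw [sum_add_distrib, sum_const, smul_eq_mul, mul_one, card_sdiff_of_subset hUA] at h3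
    have h4 := card_le_card hUA
    omega
  have hBP : (B \ P).card = B.card - s := by rw [card_sdiff_of_subset hPB, hPcard]
  have hsB : s ≤ B.card := by rw [← hPcard]; exact card_le_card hPB
  -- sum of the identities
  have e1 : ∑ u ∈ A, #{z ∈ B | G.Adj u z} + ∑ u ∈ A, #{z ∈ B | ¬ G.Adj u z} =
      A.card * B.card := by
    rw [← sum_add_distrib, sum_congr rfl (fun u _ => hadd u), sum_const, smul_eq_mul]
  have e2 : ∑ u ∈ A, #{z ∈ B | ¬ G.Adj u z} =
      ∑ u ∈ A, #{z ∈ P | ¬ G.Adj u z} + ∑ u ∈ A, #{z ∈ B \ P | ¬ G.Adj u z} := by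
    rw [← sum_add_distrib, sum_congr rfl (fun u _ => hmiss u)]
  have e3 : ∑ u ∈ A, #{z ∈ P | ¬ G.Adj u z} + ∑ u ∈ A, k u = A.card * s := by
    rw [← sum_add_distrib, sum_congr rfl (fun u _ => hmissP u), sum_const, smul_eq_mul]
  rw [hBP] at hsum1
  zify [hsB, ht] at e1 e2 e3 hsum1 hksum ⊢
  linarith

omit [DecidableEq V] in
lemma exists_min_cover (X Y : Finset V) (h : ∀ z ∈ Y, ∃ u ∈ X, G.Adj u z) :
    ∃ U ⊆ X, (∀ z ∈ Y, ∃ u ∈ U, G.Adj u z) ∧
      ∀ S ⊆ X, (∀ z ∈ Y, ∃ u ∈ S, G.Adj u z) → U.card ≤ S.card := by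
  obtain ⟨U, hU, hmin⟩ := exists_min_image
    (X.powerset.filter (fun S => ∀ z ∈ Y, ∃ u ∈ S, G.Adj u z)) card
    ⟨X, mem_filter.mpr ⟨mem_powerset_self X, h⟩⟩
  rw [mem_filter, mem_powerset] at hU
  exact ⟨U, hU.1, hU.2, fun S hS hS' => hmin S (mem_filter.mpr ⟨mem_powerset.mpr hS, hS'⟩)⟩

end core

/-- One-sided form: `s` and `t` are the least sizes of subsets of `A` dominating `B` and of
subsets of `B` dominating `A`, and `t < s`. -/
lemma oneSided {V : Type*} [Fintype V] [DecidableEq V] (G : SimpleGraph V) [DecidableRel G.Adj]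
    (A B U : Finset V) (s t : ℕ) (hAB : G.IsBipartiteWith (A : Set V) (B : Set V))
    (hcard : A.card + B.card = Fintype.card V)
    (hUA : U ⊆ A) (hUs : U.card = s) (hUc : ∀ z ∈ B, ∃ u ∈ U, G.Adj u z)
    (hmin : ∀ S ⊆ A, (∀ z ∈ B, ∃ u ∈ S, G.Adj u z) → s ≤ S.card)
    (htmin : ∀ T ⊆ B, (∀ u ∈ A, ∃ z ∈ T, G.Adj z u) → t ≤ T.card)
    (hiso : ∀ u ∈ A, ∃ z ∈ B, G.Adj u z)
    (hts : t < s) (ht : 1 ≤ t) :
    (4 : ℤ) * G.edgeFinset.card ≤
      ((Fintype.card V : ℤ) - (s + t)) * ((Fintype.card V : ℤ) - (s + t) + 4)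
        + 2 * (s + t) - 2 := by
  have h := core G A B U s t hUA hUs hUc
    (by
      intro S hS hlt
      by_contra hcon
      push Not at hcon
      exact absurd (hmin S hS hcon) (by omega))
    (by
      intro T hT hlt
      by_contra hcon
      push Not at hcon
      refine absurd (htmin T hT (fun u hu => ?_)) (by omega)
      obtain ⟨z, hz, hadj⟩ := hcon u hu
      exact ⟨z, hz, hadj.symm⟩)
    hiso hts ht
  have hm : ∑ u ∈ A, #{z ∈ B | G.Adj u z} = G.edgeFinset.card := by
    rw [← SimpleGraph.isBipartiteWith_sum_degrees_eq_card_edges hAB]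
    refine sum_congr rfl (fun u hu => ?_)
    rw [← SimpleGraph.card_neighborFinset_eq_degree]
    congr 1
    ext z
    rw [mem_filter, SimpleGraph.mem_neighborFinset]
    refine ⟨fun h => h.2, fun h => ⟨?_, h⟩⟩
    rcases hAB.mem_of_adj h with ⟨_, h2⟩ | ⟨h1, _⟩
    · exact mem_coe.mp h2
    · exact absurd (mem_coe.mp h1) (fun h1 => Set.disjoint_left.mp hAB.disjoint
        (mem_coe.mpr hu) (mem_coe.mpr h1))
  rw [hm] at h
  have hn : (Fintype.card V : ℤ) = A.card + B.card := by exact_mod_cast hcard.symm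
  rw [hn]
  have hts' : (t : ℤ) + 1 ≤ s := by exact_mod_cast hts
  nlinarith [sq_nonneg (((A.card : ℤ) - t + 1) - (B.card - s + 1))]

/-- The bound of Q1: a bipartite graph without isolated vertices, of order `n`, with odd total
domination number `γ ≥ 3`, has at most `⌊((n - γ)(n - γ + 4) + 2γ - 2) / 4⌋` edges. -/
theorem result {V : Type*} [Fintype V] (G : SimpleGraph V) (hbip : G.IsBipartite)
    (hiso : ∀ v, ∃ w, G.Adj v w) (hodd : Odd (totalDominationNumber G))
    (h3 : 3 ≤ totalDominationNumber G) :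
    (G.edgeSet.ncard : ℤ) ≤
      ⌊(((Fintype.card V : ℚ) - totalDominationNumber G) *
          ((Fintype.card V : ℚ) - totalDominationNumber G + 4)
        + 2 * totalDominationNumber G - 2) / 4⌋ := by
  classical
  obtain ⟨c⟩ := hbip
  set A : Finset V := univ.filter (fun v => c v = 0) with hA
  set B : Finset V := univ.filter (fun v => c v = 1) with hB
  have hmemA : ∀ v, v ∈ A ↔ c v = 0 := by intro v; simp [hA]
  have hmemB : ∀ v, v ∈ B ↔ c v = 1 := by intro v; simp [hB]
  have h01 : ∀ v, c v = 0 ∨ c v = 1 := by intro v; omega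
  have hadjA : ∀ {v w}, G.Adj v w → v ∈ A → w ∈ B := by
    intro v w h hv
    rw [hmemA] at hv
    rw [hmemB]
    have := c.valid h
    rcases h01 w with h1 | h1
    · rw [hv, h1] at this; exact absurd rfl this
    · exact h1
  have hadjB : ∀ {v w}, G.Adj v w → v ∈ B → w ∈ A := by
    intro v w h hv
    rw [hmemB] at hv
    rw [hmemA]
    have := c.valid h
    rcases h01 w with h1 | h1
    · exact h1
    · rw [hv, h1] at this; exact absurd rfl this
  have hAB : Disjoint A B := by
    rw [disjoint_left]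
    intro v h1 h2
    rw [hmemA] at h1
    rw [hmemB] at h2
    rw [h1] at h2
    exact absurd h2 (by decide)
  have hunion : A ∪ B = univ := by
    ext v
    simp only [mem_union, hmemA, hmemB, mem_univ, iff_true]
    exact h01 v
  have hcard : A.card + B.card = Fintype.card V := by
    rw [← card_union_of_disjoint hAB, hunion, card_univ]
  have hbw : G.IsBipartiteWith (A : Set V) (B : Set V) := by
    refine ⟨disjoint_coe.mpr hAB, ?_⟩
    intro v w h
    rcases h01 v with h1 | h1
    · exact Or.inl ⟨mem_coe.mpr ((hmemA v).mpr h1), mem_coe.mpr (hadjA h ((hmemA v).mpr h1))⟩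
    · exact Or.inr ⟨mem_coe.mpr ((hmemB v).mpr h1), mem_coe.mpr (hadjB h ((hmemB v).mpr h1))⟩
  have hcovA : ∀ z ∈ B, ∃ u ∈ A, G.Adj u z := by
    intro z hz
    obtain ⟨w, hw⟩ := hiso z
    exact ⟨w, hadjB hw hz, hw.symm⟩
  have hcovB : ∀ z ∈ A, ∃ u ∈ B, G.Adj u z := by
    intro z hz
    obtain ⟨w, hw⟩ := hiso z
    exact ⟨w, hadjA hw hz, hw.symm⟩
  obtain ⟨U, hUA, hUc, hUmin⟩ := exists_min_cover G A B hcovA
  obtain ⟨W, hWB, hWc, hWmin⟩ := exists_min_cover G B A hcovB
  -- the total domination number splits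
  have hsplit : totalDominationNumber G = U.card + W.card := by
    apply le_antisymm
    · refine Nat.sInf_le ⟨U ∪ W, ?_, ?_⟩
      · intro v
        rcases h01 v with h1 | h1
        · obtain ⟨u, hu, hadj⟩ := hWc v ((hmemA v).mpr h1)
          exact ⟨u, mem_union_right _ hu, hadj.symm⟩
        · obtain ⟨u, hu, hadj⟩ := hUc v ((hmemB v).mpr h1)
          exact ⟨u, mem_union_left _ hu, hadj.symm⟩
      · exact card_union_of_disjoint (disjoint_of_subset_left hUA
          (disjoint_of_subset_right hWB hAB))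
    · refine le_csInf ⟨univ.card, univ, ?_, rfl⟩ ?_
      · intro v
        obtain ⟨w, hw⟩ := hiso v
        exact ⟨w, mem_univ w, hw⟩
      · rintro k ⟨S, hS, rfl⟩
        have h1 : U.card ≤ (S ∩ A).card := by
          refine hUmin _ inter_subset_right (fun z hz => ?_)
          obtain ⟨w, hw, hadj⟩ := hS z
          exact ⟨w, mem_inter.mpr ⟨hw, hadjB hadj hz⟩, hadj.symm⟩
        have h2 : W.card ≤ (S ∩ B).card := by
          refine hWmin _ inter_subset_right (fun z hz => ?_)
          obtain ⟨w, hw, hadj⟩ := hS z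
          exact ⟨w, mem_inter.mpr ⟨hw, hadjA hadj hz⟩, hadj.symm⟩
        have h3 : (S ∩ A).card + (S ∩ B).card ≤ S.card := by
          rw [← card_union_of_disjoint (disjoint_of_subset_left inter_subset_right
            (disjoint_of_subset_right inter_subset_right hAB))]
          exact card_le_card (union_subset inter_subset_left inter_subset_left)
        omega
  -- both sides are nonempty
  have hne : Nonempty V := by
    by_contra hcon
    rw [not_nonempty_iff] at hcon
    have h1 : U.card = 0 := by rw [card_eq_zero]; exact eq_empty_of_isEmpty U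
    have h2 : W.card = 0 := by rw [card_eq_zero]; exact eq_empty_of_isEmpty W
    omega
  obtain ⟨v0⟩ := hne
  have hexA : ∃ v, v ∈ A := by
    obtain ⟨w, hw⟩ := hiso v0
    rcases h01 v0 with h1 | h1
    · exact ⟨v0, (hmemA v0).mpr h1⟩
    · exact ⟨w, hadjB hw ((hmemB v0).mpr h1)⟩
  have hexB : ∃ v, v ∈ B := by
    obtain ⟨a, ha⟩ := hexA
    obtain ⟨w, hw⟩ := hiso a
    exact ⟨w, hadjA hw ha⟩
  have hU1 : 1 ≤ U.card := by
    obtain ⟨b, hb⟩ := hexB
    obtain ⟨u, hu, _⟩ := hUc b hb
    exact card_pos.mpr ⟨u, hu⟩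
  have hW1 : 1 ≤ W.card := by
    obtain ⟨a, ha⟩ := hexA
    obtain ⟨u, hu, _⟩ := hWc a ha
    exact card_pos.mpr ⟨u, hu⟩
  have hneq : U.card ≠ W.card := by
    intro h
    rw [hsplit, h] at hodd
    exact (Nat.not_odd_iff_even.mpr (Even.add_self _)) hodd
  have hmain : (4 : ℤ) * G.edgeFinset.card ≤
      ((Fintype.card V : ℤ) - (U.card + W.card)) *
        ((Fintype.card V : ℤ) - (U.card + W.card) + 4) + 2 * (U.card + W.card) - 2 := by
    rcases lt_or_gt_of_ne hneq with hlt | hlt
    · have := oneSided G B A W W.card U.card hbw.symm (by omega) hWB rfl hWc hWmin hUmin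
        (by
          intro u hu
          obtain ⟨w, hw⟩ := hiso u
          exact ⟨w, hadjB hw hu, hw⟩) hlt hU1
      rw [add_comm (W.card : ℤ) (U.card : ℤ)] at this
      exact this
    · exact oneSided G A B U U.card W.card hbw hcard hUA rfl hUc hUmin hWmin
        (by
          intro u hu
          obtain ⟨w, hw⟩ := hiso u
          exact ⟨w, hadjA hw hu, hw⟩) hlt hW1
  rw [Int.le_floor, hsplit]
  have hnc : G.edgeSet.ncard = G.edgeFinset.card := by
    rw [← SimpleGraph.coe_edgeFinset, Set.ncard_coe_finset]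
  rw [hnc, le_div_iff₀ (by norm_num)]
  have hmain' : ((4 * G.edgeFinset.card : ℤ) : ℚ) ≤
      ((((Fintype.card V : ℤ) - (U.card + W.card)) *
        ((Fintype.card V : ℤ) - (U.card + W.card) + 4) + 2 * (U.card + W.card) - 2 : ℤ) : ℚ) := by
    exact_mod_cast hmain
  push_cast at hmain' ⊢
  linarith

end Pool.Agent.Results.MP_0479e2_co.OddTotalDomination
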